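import Pool.Agent.helper47.CL.SpecD

set_option autoImplicit false

namespace Pool.Agent.helper41.CL

open Finset

theorem ZW_gr {α : Type} [DecidableEq α] (V : Finset α) (E : Finset (Finset α)) (S : Finset α) (hG : Gr V E) :
    Gr (V \ S) (av E S) := by
  intro e he
  have h1 := (@mem_filter _ _ (_) _ _).1 he
  refine ⟨?_, (hG e h1.1).2⟩
  intro x hx
  rw [mem_sdiff]
  exact ⟨(hG e h1.1).1 hx, fun h => (Finset.disjoint_left.1 h1.2 hx) h⟩

theorem ZW_card {α : Type} [DecidableEq α] (E T : Finset (Finset α)) (S : Finset α) (hT : T ⊆ E)
    (h : ∀ e ∈ T, ¬ Disjoint e S) : #(av E S) + #(T) ≤ #(E) := by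
  have hd : Disjoint (av E S) T := by
    rw [Finset.disjoint_left]
    intro e he het
    exact h e het ((@mem_filter _ _ (_) _ _).1 he).2
  rw [← card_union_of_disjoint hd]
  apply card_le_card
  apply union_subset _ hT
  intro e he
  exact ((@mem_filter _ _ (_) _ _).1 he).1

theorem ZW (h1 : ZD_stmt) : ZW_stmt := by
  intro α _ V E p a b hG hT
  obtain ⟨hab, hpa, hpb, hEa, hEb, hE⟩ := hT
  have hpV : p ∈ V := (hG _ hEa).1 (by simp)
  have haV : a ∈ V := (hG _ hEa).1 (by simp)
  have hbV : b ∈ V := (hG _ hEb).1 (by simp)
  have hSV : ({p, a, b} : Finset α) ⊆ V := by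
    intro x hx
    simp only [mem_insert, mem_singleton] at hx
    rcases hx with rfl | rfl | rfl <;> assumption
  have hS3 : #({p, a, b} : Finset α) = 3 := by
    rw [card_insert_of_notMem, card_insert_of_notMem, card_singleton]
    · simpa using hab
    · simp only [mem_insert, mem_singleton, not_or]
      exact ⟨hpa, hpb⟩
  have hne : ({p, a} : Finset α) ≠ {p, b} := by
    intro h
    have : a ∈ ({p, b} : Finset α) := h ▸ (by simp)
    simp only [mem_insert, mem_singleton] at this
    rcases this with h | h
    · exact hpa h.symm
    · exact hab h
  have hmeet : ∀ e : Finset α, (p ∈ e ∨ a ∈ e ∨ b ∈ e) → ¬ Disjoint e ({p, a, b} : Finset α) := by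
    intro e he hd
    rw [Finset.disjoint_left] at hd
    rcases he with h | h | h
    · exact hd h (by simp)
    · exact hd h (by simp)
    · exact hd h (by simp)
  have hG2 : Gr (V.erase p) (av E {p}) := by
    have := ZW_gr V E {p} hG
    rwa [Finset.sdiff_singleton_eq_erase] at this
  have hav : #(av E {p}) + 2 = #(E) := by
    have hle : #(av E {p}) + #({{p, a}, {p, b}} : Finset (Finset α)) ≤ #(E) := by
      apply ZW_card
      · intro e he
        simp only [mem_insert, mem_singleton] at he
        rcases he with rfl | rfl <;> assumption
      · intro e he hd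
        simp only [mem_insert, mem_singleton] at he
        rw [Finset.disjoint_left] at hd
        rcases he with rfl | rfl
        · exact hd (a := p) (by simp) (by simp)
        · exact hd (a := p) (by simp) (by simp)
    have hge : #(E) ≤ #(av E {p}) + #({{p, a}, {p, b}} : Finset (Finset α)) := by
      refine (card_le_card ?_).trans (card_union_le _ _)
      intro e he
      rw [mem_union]
      by_cases hp : p ∈ e
      · right
        simpa using hE e he hp
      · left
        refine (@mem_filter _ _ (_) _ _).2 ⟨he, ?_⟩
        rw [Finset.disjoint_singleton_right]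
        exact hp
    rw [card_pair hne] at hle hge
    omega
  refine ⟨ZW_gr V E _ hG, hG2, ?_, ?_, hav, ?_, ?_, ?_⟩
  · rw [card_sdiff_of_subset hSV, hS3]
    have := card_le_card hSV
    omega
  · rw [card_erase_of_mem hpV]
    have : 0 < #(V) := card_pos.2 ⟨p, hpV⟩
    omega
  · intro hor
    have key : ∃ e ∈ E, (a ∈ e ∨ b ∈ e) ∧ e ≠ {p, a} ∧ e ≠ {p, b} := by
      rcases hor with h | h
      · obtain ⟨e, he, hne'⟩ := exists_mem_ne (show 1 < #(inc E a) by omega) {p, a}
        have he' := (@mem_filter _ _ (_) _ _).1 he
        refine ⟨e, he'.1, Or.inl he'.2, hne', ?_⟩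
        rintro rfl
        have := he'.2
        simp only [mem_insert, mem_singleton] at this
        rcases this with h | h
        · exact hpa h.symm
        · exact hab h
      · obtain ⟨e, he, hne'⟩ := exists_mem_ne (show 1 < #(inc E b) by omega) {p, b}
        have he' := (@mem_filter _ _ (_) _ _).1 he
        refine ⟨e, he'.1, Or.inr he'.2, ?_, hne'⟩
        rintro rfl
        have := he'.2
        simp only [mem_insert, mem_singleton] at this
        rcases this with h | h
        · exact hpb h.symm
        · exact hab h.symm
    obtain ⟨e, he, hmem, he1, he2⟩ := key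
    have hc : #({{p, a}, {p, b}, e} : Finset (Finset α)) = 3 := by
      rw [card_insert_of_notMem, card_pair he2.symm]
      simp only [mem_insert, mem_singleton, not_or]
      exact ⟨hne, he1.symm⟩
    rw [← hc]
    apply ZW_card
    · intro f hf
      simp only [mem_insert, mem_singleton] at hf
      rcases hf with rfl | rfl | rfl <;> assumption
    · intro f hf
      simp only [mem_insert, mem_singleton] at hf
      apply hmeet
      rcases hf with rfl | rfl | rfl
      · left; simp
      · left; simp
      · right; exact hmem
  · intro ha2 hb2 habE
    obtain ⟨e, he, he1⟩ := exists_mem_ne (show 1 < #(inc E a) by omega) {p, a}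
    obtain ⟨f, hf, hf2⟩ := exists_mem_ne (show 1 < #(inc E b) by omega) {p, b}
    have he' := (@mem_filter _ _ (_) _ _).1 he
    have hf' := (@mem_filter _ _ (_) _ _).1 hf
    have he2 : e ≠ {p, b} := by
      rintro rfl
      have := he'.2
      simp only [mem_insert, mem_singleton] at this
      rcases this with h | h
      · exact hpa h.symm
      · exact hab h
    have hf1 : f ≠ {p, a} := by
      rintro rfl
      have := hf'.2
      simp only [mem_insert, mem_singleton] at this
      rcases this with h | h
      · exact hpb h.symm
      · exact hab h.symm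
    have hef : e ≠ f := by
      rintro rfl
      apply habE
      have hsub : ({a, b} : Finset α) ⊆ e := by
        intro x hx
        simp only [mem_insert, mem_singleton] at hx
        rcases hx with rfl | rfl
        · exact he'.2
        · exact hf'.2
      have heq : ({a, b} : Finset α) = e :=
        eq_of_subset_of_card_le hsub (by rw [(hG e he'.1).2, card_pair hab])
      rw [heq]
      exact he'.1
    have hc : #({{p, a}, {p, b}, e, f} : Finset (Finset α)) = 4 := by
      rw [card_insert_of_notMem, card_insert_of_notMem, card_pair hef]
      · simp only [mem_insert, mem_singleton, not_or]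
        exact ⟨he2.symm, hf2.symm⟩
      · simp only [mem_insert, mem_singleton, not_or]
        exact ⟨hne, he1.symm, hf1.symm⟩
    rw [← hc]
    apply ZW_card
    · intro g hg
      simp only [mem_insert, mem_singleton] at hg
      rcases hg with rfl | rfl | rfl | rfl
      · exact hEa
      · exact hEb
      · exact he'.1
      · exact hf'.1
    · intro g hg
      simp only [mem_insert, mem_singleton] at hg
      apply hmeet
      rcases hg with rfl | rfl | rfl | rfl
      · left; simp
      · left; simp
      · right; left; exact he'.2
      · right; right; exact hf'.2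
  · intro k
    have := h1 α V E p {p, a, b} k hG (by simp) hSV (by
      intro e he hpe
      rcases hE e he hpe with rfl | rfl
      · intro x hx
        simp only [mem_insert, mem_singleton] at hx ⊢
        tauto
      · intro x hx
        simp only [mem_insert, mem_singleton] at hx ⊢
        tauto)
    omega

end Pool.Agent.helper41.CL
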